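import Pool.Agent.PFE.StmtsE1
import Pool.Agent.PFE.StmtsE2

/-!
# Squad PFE, row RTW (helper46): the relative trace of `1` from `R[y]` is divisible by `|W|`
-/

open scoped BigOperators TensorProduct

noncomputable section

namespace Pool.Agent.PFE.H46

open Pool.Agent.PFD Pool.Agent.PFD.D2 Pool.Agent.PFD.D2b
open MulOpposite

section

variable {R F Γ Γ0 W A A1 X N J Ω Ω' Ω1 Ω1' : Type} [CommRing R] [Field F] {c : Cdv R F}
    [CommRing Γ] [Algebra R Γ] [CommRing Γ0] [Algebra F Γ0] [CommGroup W] [Fintype W] [Ring A]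
    [Algebra F A] [Ring A1] [Algebra R A1] [Group X] [Fintype N] [Fintype J] [Fintype Ω]
    [Fintype Ω'] [MulAction (W × W) Ω] [MulAction (W × W) Ω'] [Fintype Ω1] [Fintype Ω1']
    {l : ℕ} {G : GY R Γ W l} {f : FibG Γ Γ0 c}
    {χ : X →* R} {j0 : Γ0 →ₐ[F] A} {pr0 : A →ₗ[F] Γ0}

theorem pi_w (hG : GwfStmt) (lz : LZ A1 N Ω Ω' G χ f j0 pr0)
    (D : Yd R A1 X J Ω1 Ω1' (lz.j G.y) l χ) (hd : D.d.lam = lz.tA) (a : A1) :
    ∑ w, D.pi (lz.j (G.om w⁻¹ * lz.u') * a) * lz.j (G.om w) = lz.j (lz.pr a) := by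
  obtain ⟨E, hE, hom, hcf, hcf'⟩ := hG R Γ W l G (le_trans one_le_two D.hl)
  have h1 := E.h1 (lz.pr a)
  rw [hE, hom] at h1
  conv_rhs => rw [← h1]
  rw [Finset.sum_comm, map_sum]
  refine Finset.sum_congr rfl fun w _ => ?_
  rw [map_sum]
  unfold Yd.pi
  rw [Finset.sum_mul, Finset.sum_range]
  refine Finset.sum_congr rfl fun i _ => ?_
  have h3 : lz.j (G.y ^ (i : ℕ) * G.om w) = lz.j G.y ^ (i : ℕ) * lz.j (G.om w) := by
    rw [map_mul, map_pow]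
  rw [map_smul, hcf, hcf', hd, lz.ort, smul_mul_assoc, h3]
  refine congrArg (fun r => r • (lz.j G.y ^ (i : ℕ) * lz.j (G.om w))) ?_
  refine congrArg (G.co (l - 1) 1) ?_
  rw [← map_pow, ← mul_assoc, ← map_mul, lz.pr_l]
  have h2 := lz.uu
  calc lz.u * (G.y ^ (l - 1 - (i : ℕ)) * (G.om w⁻¹ * lz.u') * lz.pr a)
      = (lz.u * lz.u') * (G.om w⁻¹ * G.y ^ (l - 1 - (i : ℕ)) * lz.pr a) := by ring
    _ = G.om w⁻¹ * G.y ^ (l - 1 - (i : ℕ)) * lz.pr a := by rw [h2, one_mul]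

theorem pi_comm (lz : LZ A1 N Ω Ω' G χ f j0 pr0)
    (D : Yd R A1 X J Ω1 Ω1' (lz.j G.y) l χ) (a : A1) (γ : Γ) :
    D.pi a * lz.j γ = lz.j γ * D.pi a := by
  unfold Yd.pi
  rw [Finset.sum_mul, Finset.mul_sum]
  refine Finset.sum_congr rfl fun i _ => ?_
  have h1 : lz.j G.y ^ i * lz.j γ = lz.j γ * lz.j G.y ^ i := by
    rw [← map_pow, ← map_mul, ← map_mul, mul_comm]
  rw [smul_mul_assoc, mul_smul_comm, h1]

end

theorem rtw (hG : GwfStmt) (hK : RtkStmt) : RtwStmt := by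
  intro R F Γ Γ0 W A A1 X N J Ω Ω' Ω1 Ω1' _ _ c _ _ _ _ _ _ _ _ _ _ _ _ _ _ _ _ _ _ _ l G f χ
    j0 pr0 lz D hd
  obtain ⟨-, h2, -⟩ := hK R A1 X J Ω1 Ω1' (lz.j G.y) l χ D
  have h3 : ∀ r, D.e r = ∑ k, ∑ w, lz.rf.x k * lz.j (G.om w) *
      D.pi (lz.j (G.om w⁻¹ * lz.u') * lz.rf.y k * D.e r) := by
    intro r
    conv_lhs => rw [← lz.rf.e1 (D.e r)]
    refine Finset.sum_congr rfl fun k _ => ?_
    rw [← pi_w hG lz D hd, Finset.mul_sum]
    refine Finset.sum_congr rfl fun w _ => ?_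
    rw [pi_comm, mul_assoc (lz.rf.x k), mul_assoc (lz.j _) (lz.rf.y k)]
  have h4 : D.RT 1 = ∑ k, ∑ w : W, lz.rf.x k * lz.j lz.u' * lz.rf.y k := by
    unfold Yd.RT
    have h5 : ∀ r, D.e r * 1 * D.e' r = ∑ k, ∑ w, lz.rf.x k * lz.j (G.om w) *
        (D.pi (lz.j (G.om w⁻¹ * lz.u') * lz.rf.y k * D.e r) * D.e' r) := by
      intro r
      rw [mul_one]
      conv_lhs => rw [h3 r]
      rw [Finset.sum_mul]
      refine Finset.sum_congr rfl fun k _ => ?_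
      rw [Finset.sum_mul]
      refine Finset.sum_congr rfl fun w _ => ?_
      rw [mul_assoc (lz.rf.x k * lz.j (G.om w))]
    rw [Finset.sum_congr rfl fun r _ => h5 r, Finset.sum_comm]
    refine Finset.sum_congr rfl fun k _ => ?_
    rw [Finset.sum_comm]
    refine Finset.sum_congr rfl fun w _ => ?_
    rw [← Finset.mul_sum, h2]
    have h6 : lz.j (G.om w) * lz.j (G.om w⁻¹ * lz.u') = lz.j lz.u' := by
      rw [← map_mul, ← mul_assoc, ← map_mul, mul_inv_cancel, map_one, one_mul]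
    rw [← mul_assoc, mul_assoc (lz.rf.x k), h6]
  rw [h4]
  unfold RF.rt
  rw [Finset.smul_sum]
  refine Finset.sum_congr rfl fun k _ => ?_
  rw [Finset.sum_const, Finset.card_univ, Nat.cast_smul_eq_nsmul]

end Pool.Agent.PFE.H46
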